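import Pool.Agent.Helper76.PB.GoalsF
import Pool.Agent.Helper96.PP.BCHR
import Pool.Agent.Helper14.PP.BPRC
import Pool.Agent.Helper14.PP.A1FIX
import Pool.Agent.Helper14.PP.BKUM
import Pool.Agent.Helper90.RP.DUAL

/-!
# Project B, packet X_DK: density of the common zeros of functionals
-/

set_option autoImplicit false

namespace Pool.Agent.Helper2.PB

open NumberField Module IsDedekindDomain
open Pool.Agent.Helper51.RP Pool.Agent.Helper42.RD Pool.Agent.Helper42.PP
open Pool.Agent.Helper76.PP Pool.Agent.Helper76.PB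
open Pool.Agent.Helper38.RS (pz)
open Pool.Agent.Helper51.PP (RC)
open Pool.Agent.Helper84.RS (summable_norm)

section mods

variable {F : Type} [Field F] [NumberField F]

/-- The modulus. -/
noncomputable def md (p : ℕ) {Z : Set (HeightOneSpectrum (𝓞 F))} (hZ : Z.Finite) : Ideal (𝓞 F) :=
  Ideal.span {(p : 𝓞 F) ^ 3} * ∏ v ∈ hZ.toFinset, v.asIdeal

theorem md_ne (p : ℕ) [hp : Fact p.Prime] {Z : Set (HeightOneSpectrum (𝓞 F))} (hZ : Z.Finite) :
    md p hZ ≠ ⊥ := by
  unfold md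
  rw [Ne, Ideal.mul_eq_bot, not_or]
  constructor
  · rw [Ideal.span_singleton_eq_bot]
    exact pow_ne_zero _ (by exact_mod_cast hp.out.ne_zero)
  · have h : (∏ v ∈ hZ.toFinset, v.asIdeal) ≠ 0 := by
      rw [Finset.prod_ne_zero_iff]
      intro v _
      exact v.ne_bot
    exact h

theorem md_le (p : ℕ) {Z : Set (HeightOneSpectrum (𝓞 F))} (hZ : Z.Finite)
    {w : HeightOneSpectrum (𝓞 F)} (hw : w ∈ Z) : md p hZ ≤ w.asIdeal := by
  unfold md
  refine Ideal.mul_le_right.trans ?_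
  rw [← Ideal.dvd_iff_le]
  exact Finset.dvd_prod_of_mem (fun v : HeightOneSpectrum (𝓞 F) => v.asIdeal)
    (hZ.mem_toFinset.2 hw)

theorem md_cop (p : ℕ) [hp : Fact p.Prime] {Z : Set (HeightOneSpectrum (𝓞 F))} (hZ : Z.Finite)
    (hpZ : abP p F ⊆ Z) {w : HeightOneSpectrum (𝓞 F)} (hw : w ∉ Z) :
    w.asIdeal ⊔ md p hZ = ⊤ := by
  have hm := w.isMaximal
  by_contra hne
  have h1 : w.asIdeal ⊔ md p hZ = w.asIdeal :=
    (hm.eq_of_le hne le_sup_left).symm
  have h2 : md p hZ ≤ w.asIdeal := by rw [← h1]; exact le_sup_right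
  have h3 := w.isPrime.mul_le.1 h2
  rcases h3 with h3 | h3
  · apply hw
    apply hpZ
    have h4 : (p : 𝓞 F) ∈ w.asIdeal :=
      w.isPrime.mem_of_pow_mem 3 (h3 (Ideal.mem_span_singleton_self _))
    have h5 := (HeightOneSpectrum.valuation_lt_one_iff_mem (K := F) w (p : 𝓞 F)).2 h4
    show w.valuation F (p : F) < 1
    simpa using h5
  · obtain ⟨v, hv, hvw⟩ := (Ideal.IsPrime.prod_le w.isPrime).1 h3
    have h4 : v.asIdeal = w.asIdeal := v.isMaximal.eq_of_le w.isPrime.ne_top hvw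
    have h5 : v = w := HeightOneSpectrum.ext h4
    exact hw (h5 ▸ hZ.mem_toFinset.1 hv)

theorem md_loc (p : ℕ) {Z : Set (HeightOneSpectrum (𝓞 F))} (hZ : Z.Finite) (x : Fˣ) (α : 𝓞 F)
    (hx : (x : F) = α) (hα : α - 1 ∈ md p hZ) : LocS p Z x := by
  refine ⟨1, fun w hw => ?_⟩
  have e : (x : F) * ((1 : Fˣ) : F) ^ p - 1 = ((α - 1 : 𝓞 F) : F) := by
    rw [hx]; simp
  rw [e]
  refine ⟨(HeightOneSpectrum.valuation_lt_one_iff_mem (K := F) w _).2 (md_le p hZ hw hα), ?_⟩
  have h1 : α - 1 ∈ Ideal.span {(p : 𝓞 F) ^ 3} := by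
    have : md p hZ ≤ Ideal.span {(p : 𝓞 F) ^ 3} := Ideal.mul_le_left
    exact this hα
  obtain ⟨β, hβ⟩ := Ideal.mem_span_singleton.1 h1
  rw [hβ]
  have e2 : (((p : 𝓞 F) ^ 3 * β : 𝓞 F) : F) = (p : F) ^ 3 * (β : F) := by simp
  rw [e2, map_mul, map_pow]
  exact mul_le_of_le_one_right' (w.valuation_le_one (K := F) β)

end mods

section fun_

variable {F : Type} [Field F] [NumberField F] {p : ℕ} [hp : Fact p.Prime]

/-- The functional `∑ a_i f_i`. -/
def fa {d : ℕ} (f : Fin d → Fˣ → ZMod p) (a : Fin d → ZMod p) (x : Fˣ) : ZMod p :=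
  ∑ i, a i * f i x

theorem fa_hom {d : ℕ} {f : Fin d → Fˣ → ZMod p} (hf : ∀ i, Hom (f i)) (a : Fin d → ZMod p) :
    Hom (fa f a) := by
  intro x y
  unfold fa
  rw [← Finset.sum_add_distrib]
  refine Finset.sum_congr rfl fun i _ => ?_
  rw [hf i x y, mul_add]

theorem fa_zero {d : ℕ} {f : Fin d → Fˣ → ZMod p} (a : Fin d → ZMod p) (x : Fˣ)
    (h : ∀ i, f i x = 0) : fa f a x = 0 :=
  Finset.sum_eq_zero fun i _ => by rw [h i, mul_zero]

/-- The divisor of `z` outside `Z` is `w`. -/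
def Dv (Z : Set (HeightOneSpectrum (𝓞 F))) (w : HeightOneSpectrum (𝓞 F)) (z : Fˣ) : Prop :=
  ∀ w' ∉ Z, (w' = w → ordv w' (z : F) = 1) ∧ (w' ≠ w → ordv w' (z : F) = 0)

theorem exists_dv {Z : Set (HeightOneSpectrum (𝓞 F))} (hZ : PrZ F Z)
    (w : HeightOneSpectrum (𝓞 F)) : ∃ z : Fˣ, Dv Z w z := by
  classical
  obtain ⟨z, hz⟩ := hZ (Finsupp.single w 1)
  refine ⟨z, fun w' hw' => ?_⟩
  rw [hz w' hw', Finsupp.single_apply]
  refine ⟨fun h => by rw [if_pos h.symm], fun h => by rw [if_neg (Ne.symm h)]⟩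

/-- The valuation as a homomorphism. -/
noncomputable def ordH (w : HeightOneSpectrum (𝓞 F)) : Fˣ →* Multiplicative ℤ :=
  MonoidHom.mk' (fun x => Multiplicative.ofAdd (ordv w (x : F)))
    (fun a b => by rw [Units.val_mul, ordv_mul w a.ne_zero b.ne_zero]; rfl)

theorem ordv_units_div (w : HeightOneSpectrum (𝓞 F))
    (x y : Fˣ) : ordv w ((x / y : Fˣ) : F) = ordv w (x : F) - ordv w (y : F) :=
  congrArg Multiplicative.toAdd (_root_.map_div (ordH w) x y)

theorem ordv_units_prod_zpow {ι : Type}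
    (w : HeightOneSpectrum (𝓞 F)) (s : Finset ι) (x : ι → Fˣ) (n : ι → ℤ) :
    ordv w ((∏ i ∈ s, x i ^ n i : Fˣ) : F) = ∑ i ∈ s, n i * ordv w (x i : F) := by
  have h1 := map_prod (ordH w) (fun i => x i ^ n i) s
  simp only [map_zpow] at h1
  have h2 := congrArg Multiplicative.toAdd h1
  rw [toAdd_prod] at h2
  simp only [toAdd_zpow, smul_eq_mul] at h2
  exact h2

theorem exists_prime (Z : Set (HeightOneSpectrum (𝓞 F))) (hZ : PrZ F Z)
    (g : Fˣ → ZMod p) (hg : Hom g) (hu : ∀ x ∈ Z.unit F, g x = 0) (x : Fˣ) (hx : g x ≠ 0) :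
    ∃ w ∉ Z, ∃ z : Fˣ, Dv Z w z ∧ g z ≠ 0 := by
  classical
  by_contra hcon
  push Not at hcon
  have hfin := Pool.Agent.Helper90.RP.Dual.finite_ordv (x : F) x.ne_zero
  choose z hz using exists_dv (F := F) hZ
  set A := hfin.toFinset.filter (fun w => w ∉ Z) with hA
  have hgz : ∀ w ∈ A, g (z w) = 0 := by
    intro w hw
    exact hcon w (Finset.mem_filter.1 hw).2 (z w) (hz w)
  let G : Fˣ →* Multiplicative (ZMod p) :=
    MonoidHom.mk' (fun x => Multiplicative.ofAdd (g x)) (fun a b => by rw [hg]; rfl)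
  have hG : ∀ x, G x = 1 ↔ g x = 0 := fun x => Iff.rfl
  have h1 : G (x / ∏ w ∈ A, (z w) ^ (ordv w (x : F))) = 1 := by
    rw [hG]
    apply hu
    show ∀ w ∉ Z, w.valuation F _ = 1
    intro w' hw'
    rw [← ordv_eq_zero_iff w' (Units.ne_zero _), ordv_units_div, ordv_units_prod_zpow, sub_eq_zero]
    by_cases hm : w' ∈ A
    · rw [Finset.sum_eq_single_of_mem w' hm, (hz w' w' hw').1 rfl, mul_one]
      intro w hw hne
      rw [(hz w w' hw').2 (Ne.symm hne), mul_zero]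
    · have h0 : ordv w' (x : F) = 0 := by
        by_contra hne
        exact hm (Finset.mem_filter.2 ⟨hfin.mem_toFinset.2 hne, hw'⟩)
      rw [h0]
      symm
      apply Finset.sum_eq_zero
      intro w hw
      rw [(hz w w' hw').2 (fun h => hm (h ▸ hw)), mul_zero]
  rw [_root_.map_div, map_prod, Finset.prod_eq_one, div_one] at h1
  · exact hx h1
  · intro w hw
    rw [map_zpow, (hG (z w)).2 (hgz w hw), one_zpow]

end fun_

section chars

/-- The sum of the real parts of the values of all the characters `a ↦ ψ(∑ a_i t_i)`. -/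
theorem sum_char (p : ℕ) [hp : Fact p.Prime] (d : ℕ) (t : Fin d → ZMod p) :
    0 ≤ ∑ a : Fin d → ZMod p, ((ZMod.stdAddChar (N := p)) (∑ i, a i * t i)).re ∧
    ((∀ i, t i = 0) → (p : ℝ) ^ d = ∑ a : Fin d → ZMod p,
      ((ZMod.stdAddChar (N := p)) (∑ i, a i * t i)).re) := by
  constructor
  · let L : (Fin d → ZMod p) →+ ZMod p :=
      { toFun := fun a => ∑ i, a i * t i
        map_zero' := by simp
        map_add' := fun a b => by
          rw [← Finset.sum_add_distrib]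
          exact Finset.sum_congr rfl fun i _ => by rw [Pi.add_apply, add_mul] }
    let ψ : AddChar (Fin d → ZMod p) ℂ := (ZMod.stdAddChar (N := p)).compAddMonoidHom L
    have h1 : ∑ a : Fin d → ZMod p, ((ZMod.stdAddChar (N := p)) (∑ i, a i * t i)).re =
        (∑ a : Fin d → ZMod p, ψ a).re := by
      rw [Complex.re_sum]; rfl
    rw [h1]
    by_cases hψ : ψ = 1
    · rw [hψ]
      have h3 : ∑ a : Fin d → ZMod p, (1 : AddChar (Fin d → ZMod p) ℂ) a =
          (((p : ℝ) ^ d : ℝ) : ℂ) := by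
        simp
      rw [h3, Complex.ofReal_re]
      positivity
    · have h2 : ∑ a : Fin d → ZMod p, ψ a = 0 := AddChar.sum_eq_zero_of_ne_one hψ
      rw [h2, Complex.zero_re]
  · intro ht
    simp only [ht, mul_zero, Finset.sum_const_zero, AddChar.map_zero_eq_one, Complex.one_re,
      Finset.sum_const, Finset.card_univ, nsmul_eq_mul, mul_one]
    rw [Fintype.card_fun, ZMod.card, Fintype.card_fin]
    push_cast
    rfl

end chars

theorem x_dk : Pool.Agent.Helper76.PB.X_DK := by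
  classical
  intro p hp F _ _ _ Z hZ hpZ hPr d f hf hind
  have hchr := fun a : Fin d → ZMod p => Pool.Agent.Helper96.PP.b_chr p F Z hPr (md p hZ)
    (md_ne p hZ) (fa f a) (fa_hom (fun i => (hf i).hom) a)
    (fun x hx => fa_zero a x fun i => (hf i).unit x hx)
    (fun x α hx hα => fa_zero a x fun i => (hf i).loc x (md_loc p hZ x α hx hα))
  set ψ₁ : AddChar (ZMod p) ℂ := ZMod.stdAddChar (N := p) with hψ₁
  set χ : (Fin d → ZMod p) → Ideal (𝓞 F) → ℂ := fun a => chI (md p hZ) ψ₁ (idl Z (fa f a)) with hχ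
  have hRC : ∀ a, RC (md p hZ) (χ a) := fun a =>
    Pool.Agent.Helper14.PP.b_prc p F (md p hZ) _ (hchr a).2.2.1 ψ₁
  -- values at the primes
  have hval : ∀ a (w : HeightOneSpectrum (𝓞 F)), w ∉ Z → ∀ z, Dv Z w z →
      χ a w.asIdeal = ψ₁ (fa f a z) := by
    intro a w hw z hz
    show chI (md p hZ) ψ₁ (idl Z (fa f a)) w.asIdeal = _
    unfold chI
    rw [if_pos ⟨w.ne_bot, md_cop p hZ hpZ hw⟩, (hchr a).2.2.2.2 w z hz]
  have hvalZ : ∀ a (w : HeightOneSpectrum (𝓞 F)), w ∈ Z → χ a w.asIdeal = 0 := by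
    intro a w hw
    refine (hRC a).ncop _ w.ne_bot ?_
    rw [sup_eq_left.2 (md_le p hZ hw)]
    exact w.isPrime.ne_top
  -- the nontrivial characters
  have hfix : ∀ a : Fin d → ZMod p, a ≠ 0 → ∃ C : ℝ, ∀ s : ℝ, 1 < s → s ≤ 2 →
      ∑' v : HeightOneSpectrum (𝓞 F), (χ a v.asIdeal).re *
        (Ideal.absNorm v.asIdeal : ℝ) ^ (-s) ≤ C := by
    intro a ha
    refine Pool.Agent.Helper14.PP.goalFIX F (md p hZ) (χ a) (hRC a) ?_
    obtain ⟨x, hx⟩ : ∃ x, fa f a x ≠ 0 := by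
      by_contra hcon
      push Not at hcon
      exact ha (hind a hcon)
    obtain ⟨w, hw, z, hz, hz0⟩ := exists_prime Z hPr (fa f a) (fa_hom (fun i => (hf i).hom) a)
      (fun x hx => fa_zero a x fun i => (hf i).unit x hx) x hx
    refine ⟨w.asIdeal, w.ne_bot, md_cop p hZ hpZ hw, ?_⟩
    rw [hval a w hw z hz]
    intro h1
    apply hz0
    have h2 : ψ₁ (fa f a z) = ψ₁ 0 := by rw [h1, AddChar.map_zero_eq_one]
    exact ZMod.injective_stdAddChar h2
  choose! C hC using hfix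
  obtain ⟨C₀, hC₀⟩ := Pool.Agent.Helper14.PP.psmK F
  have hp0 : (0 : ℝ) < (p : ℝ) ^ d := pow_pos (by exact_mod_cast hp.out.pos) d
  refine ⟨(C₀ + ∑ a ∈ Finset.univ.erase (0 : Fin d → ZMod p), C a) / (p : ℝ) ^ d, ?_⟩
  intro s hs1 hs2
  set A : Set (HeightOneSpectrum (𝓞 F)) := {w | w ∉ Z ∧ ∀ i, Van Z (f i) w} with hA
  set N : HeightOneSpectrum (𝓞 F) → ℝ := fun w => (Ideal.absNorm w.asIdeal : ℝ) ^ (-s) with hN
  have hN0 : ∀ w, 0 ≤ N w := fun w => Real.rpow_nonneg (Nat.cast_nonneg _) _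
  have hsum : Summable N := summable_norm F s hs1
  have hχb : ∀ a (w : HeightOneSpectrum (𝓞 F)), |(χ a w.asIdeal).re| ≤ 1 := by
    intro a w
    by_cases hw : w ∈ Z
    · rw [hvalZ a w hw]; simp
    · refine (Complex.abs_re_le_norm _).trans ?_
      rw [(hRC a).cop _ w.ne_bot (md_cop p hZ hpZ hw)]
  have hsa : ∀ a, Summable fun w : HeightOneSpectrum (𝓞 F) => (χ a w.asIdeal).re * N w := by
    intro a
    refine Summable.of_norm_bounded hsum fun w => ?_
    rw [Real.norm_eq_abs, abs_mul, abs_of_nonneg (hN0 w)]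
    exact mul_le_of_le_one_left (hN0 w) (hχb a w)
  have hpt : ∀ w, (p : ℝ) ^ d * A.indicator N w ≤ N w +
      ∑ a ∈ Finset.univ.erase (0 : Fin d → ZMod p), (χ a w.asIdeal).re * N w := by
    intro w
    by_cases hw : w ∈ Z
    · have h1 : w ∉ A := fun h => h.1 hw
      rw [Set.indicator_of_notMem h1, mul_zero, Finset.sum_eq_zero, add_zero]
      · exact hN0 w
      · intro a _
        rw [hvalZ a w hw, Complex.zero_re, zero_mul]
    · obtain ⟨z, hz⟩ := exists_dv hPr w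
      have h1 : N w + ∑ a ∈ Finset.univ.erase (0 : Fin d → ZMod p), (χ a w.asIdeal).re * N w =
          (∑ a : Fin d → ZMod p, (ψ₁ (∑ i, a i * f i z)).re) * N w := by
        rw [Finset.sum_mul, ← Finset.add_sum_erase Finset.univ _ (Finset.mem_univ 0)]
        congr 1
        · simp
        · refine Finset.sum_congr rfl fun a _ => ?_
          rw [hval a w hw z hz]
          rfl
      rw [h1]
      obtain ⟨h2, h3⟩ := sum_char p d (fun i => f i z)
      by_cases hwA : w ∈ A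
      · rw [Set.indicator_of_mem hwA, h3 (fun i => hwA.2 i z hz)]
      · rw [Set.indicator_of_notMem hwA, mul_zero]
        exact mul_nonneg h2 (hN0 w)
  have e1 : pz (F := F) Set.univ s = ∑' w, N w := by
    unfold pz
    exact tsum_univ N
  have e2 : pz A s = ∑' w, A.indicator N w := by
    unfold pz
    exact tsum_subtype A N
  have hle : (p : ℝ) ^ d * pz A s ≤ pz (F := F) Set.univ s +
      ∑ a ∈ Finset.univ.erase (0 : Fin d → ZMod p),
        ∑' w : HeightOneSpectrum (𝓞 F), (χ a w.asIdeal).re * N w := by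
    rw [e1, e2, ← tsum_mul_left, ← Summable.tsum_finsetSum (fun a _ => hsa a),
      ← hsum.tsum_add (summable_sum fun a _ => hsa a)]
    exact ((hsum.indicator A).mul_left _).tsum_le_tsum hpt
      (hsum.add (summable_sum fun a _ => hsa a))
  have h1 := (abs_le.1 (hC₀ s hs1 hs2)).2
  have h2 : ∑ a ∈ Finset.univ.erase (0 : Fin d → ZMod p),
      ∑' w : HeightOneSpectrum (𝓞 F), (χ a w.asIdeal).re * N w ≤
      ∑ a ∈ Finset.univ.erase (0 : Fin d → ZMod p), C a :=
    Finset.sum_le_sum fun a ha => hC a (Finset.ne_of_mem_erase ha) s hs1 hs2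
  have h3 : pz A s ≤ (Real.log (1 / (s - 1)) + (C₀ +
      ∑ a ∈ Finset.univ.erase (0 : Fin d → ZMod p), C a)) / (p : ℝ) ^ d := by
    rw [le_div_iff₀ hp0]
    linarith
  calc pz A s ≤ _ := h3
    _ = _ := by ring

end Pool.Agent.Helper2.PB
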