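import Pool.Agent.Helper27.PB.Goals
import Pool.Agent.Helper75.ZZ.CSA

/-!
# Packet CSAV of the campaign PB: the kernel A at a corner, distributed to classes
-/

open scoped ENNReal
open Finset

namespace Pool.Agent.Helper2.PB

open Pool.Agent.Helper92.Eps hiding Bas
open Pool.Agent.Helper99.ZZ
open Pool.Agent.Helper27.PB
open Pool.Agent.Helper75.ZZ
open Helper36.Eps (iv_pos iv_neg iv_mono iv_mul iv_le)

variable {B : Type} {D : ℕ}

/-! ### Numbers -/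

theorem root_pow {N : ℕ} (hN : N ≠ 0) (a : ℝ≥0∞) : (a ^ N) ^ (1 / N : ℝ) = a := by
  have h : (N : ℝ) ≠ 0 := by exact_mod_cast hN
  rw [← ENNReal.rpow_natCast, ← ENNReal.rpow_mul, mul_one_div_cancel h, ENNReal.rpow_one]

theorem root_comm {N k : ℕ} (a : ℝ≥0∞) : (a ^ k) ^ (1 / N : ℝ) = (a ^ (1 / N : ℝ)) ^ k := by
  rw [← ENNReal.rpow_natCast, ← ENNReal.rpow_mul, ← ENNReal.rpow_natCast, ← ENNReal.rpow_mul,
    mul_comm]

theorem interp {N : ℕ} (hN : 1 ≤ N) {C K0 Q' γ θ S' m : ℝ≥0∞} {k n : ℕ} (hQ : Q' ≤ γ ^ N)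
    (ha : m ≤ C * Q' ^ n * θ ^ k * S') (hb : m ≤ K0 * S') :
    m ≤ (C * K0 ^ (N - 1)) ^ (1 / N : ℝ) * (γ ^ n * S') * (θ ^ (1 / N : ℝ)) ^ k := by
  have hN0 : N ≠ 0 := by omega
  calc m = (m ^ N) ^ (1 / N : ℝ) := (root_pow hN0 m).symm
    _ ≤ ((C * K0 ^ (N - 1)) * (γ ^ n * S') ^ N * θ ^ k) ^ (1 / N : ℝ) := by
        refine ENNReal.rpow_le_rpow ?_ (by positivity)
        obtain ⟨M, rfl⟩ : ∃ M, N = M + 1 := ⟨N - 1, by omega⟩
        rw [Nat.add_sub_cancel]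
        calc m ^ (M + 1) = m * m ^ M := pow_succ' m M
          _ ≤ (C * Q' ^ n * θ ^ k * S') * (K0 * S') ^ M :=
              mul_le_mul' ha (pow_le_pow_left₀ zero_le hb M)
          _ ≤ (C * (γ ^ (M + 1)) ^ n * θ ^ k * S') * (K0 * S') ^ M := by gcongr
          _ = _ := by ring
    _ = _ := by
        rw [ENNReal.mul_rpow_of_nonneg _ _ (by positivity),
          ENNReal.mul_rpow_of_nonneg _ _ (by positivity), root_pow hN0, root_comm]

theorem assem {ρ N n : ℕ} (hN : 1 ≤ N) {C K0 Q' γ θ Θ S S' V : ℝ≥0∞} (hQ : Q' ≤ γ ^ N)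
    (M : ℕ → ℝ≥0∞) (hV : V ≤ ∑ i ∈ range (ρ + 1), Θ ^ (ρ - i) * M i)
    (ha : ∀ i ≤ ρ, M i * S ≤ C * Q' ^ n * θ ^ (ρ - i) * S')
    (hb : ∀ i ≤ ρ, M i * S ≤ K0 * S') :
    V * S ≤ (C * K0 ^ (N - 1)) ^ (1 / N : ℝ) * (1 - Θ * θ ^ (1 / N : ℝ))⁻¹ * γ ^ n * S' := by
  calc V * S ≤ (∑ i ∈ range (ρ + 1), Θ ^ (ρ - i) * M i) * S := mul_le_mul' hV le_rfl
    _ = ∑ i ∈ range (ρ + 1), Θ ^ (ρ - i) * (M i * S) := by
        rw [Finset.sum_mul]; exact Finset.sum_congr rfl fun i _ => mul_assoc _ _ _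
    _ ≤ ∑ i ∈ range (ρ + 1), (C * K0 ^ (N - 1)) ^ (1 / N : ℝ) * (γ ^ n * S') *
          (Θ * θ ^ (1 / N : ℝ)) ^ (ρ - i) := by
        refine Finset.sum_le_sum fun i hi => ?_
        have hi' : i ≤ ρ := by have := Finset.mem_range.mp hi; omega
        refine (mul_le_mul' le_rfl (interp hN hQ (ha i hi') (hb i hi'))).trans (le_of_eq ?_)
        rw [mul_pow]
        ring
    _ = (C * K0 ^ (N - 1)) ^ (1 / N : ℝ) * (γ ^ n * S') *
          ∑ i ∈ range (ρ + 1), (Θ * θ ^ (1 / N : ℝ)) ^ (ρ - i) := by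
        rw [Finset.mul_sum]
    _ ≤ (C * K0 ^ (N - 1)) ^ (1 / N : ℝ) * (γ ^ n * S') * (1 - Θ * θ ^ (1 / N : ℝ))⁻¹ :=
        mul_le_mul' le_rfl (geo_sum le_rfl _)
    _ = _ := by ring

/-! ### The classes -/

section

variable {A : Alph B D} {E : ℕ → List B → List B → Prop}

/-- The indicator of a class. -/
noncomputable def om (A : Alph B D) (r t : ℕ) (p : List B) : ℝ≥0∞ := iv (Cl A r t p) 1

theorem om_le (r t : ℕ) (p : List B) : om A r t p ≤ 1 := iv_le _ _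

theorem om_ne {r t : ℕ} {p : List B} (h : om A r t p ≠ 0) : Cl A r t p := by
  by_contra hc
  exact h (iv_neg hc 1)

theorem iv_om (r t1 t2 : ℕ) (p1 p2 : List B) (x : ℝ≥0∞) :
    iv (Cl A r t1 p1 ∧ Cl A r t2 p2) x = om A r t1 p1 * om A r t2 p2 * x := by
  unfold om
  by_cases h1 : Cl A r t1 p1
  · by_cases h2 : Cl A r t2 p2
    · rw [iv_pos ⟨h1, h2⟩, iv_pos h1, iv_pos h2, one_mul, one_mul]
    · rw [iv_neg (fun h => h2 h.2), iv_neg h2, mul_zero, zero_mul]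
  · rw [iv_neg (fun h => h1 h.1), iv_neg h1, zero_mul, zero_mul]

theorem cl_tall {r t : ℕ} (hr : 1 ≤ r) (ht : 1 ≤ t) {p : List B} (h : Cl A r t p) :
    Tall A r p ∧ 2 ^ t * r < A.H p ∧ A.H p ≤ 2 ^ t * r + 2 ^ t * r := by
  rcases h with h | h
  · omega
  · refine ⟨⟨hr, ?_⟩, h.2.1, ?_⟩
    · have h2 : 2 * r ≤ 2 ^ t * r := by
        refine Nat.mul_le_mul_right r ?_
        calc 2 = 2 ^ 1 := rfl
          _ ≤ 2 ^ t := Nat.pow_le_pow_right (by norm_num) ht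
      omega
    · have := h.2.2
      rw [pow_succ] at this
      nlinarith [this]

theorem cl_not {r : ℕ} {p : List B} (h : Cl A r 0 p) : ¬ Tall A r p := by
  rcases h with h | h
  · intro h'
    have := h'.2
    omega
  · omega

/-- The mass of the last blocks in a class. -/
theorem cls_mass (hr : Ren A) (hra : ∀ n, RenAnti A n) {ρ t : ℕ} (ht : 1 ≤ t) (q : List B)
    (hq : A.H q ≤ 2 ^ ρ) :
    (∑' b, A.w b * om A (2 ^ ρ) t (q ++ [b])) * A.S (2 ^ t * 2 ^ ρ) ≤ 2 ^ 2 := by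
  obtain ⟨s, rfl⟩ : ∃ s, t = s + 1 := ⟨t - 1, by omega⟩
  have e : 2 ^ (s + 1) * 2 ^ ρ = 2 ^ (ρ + s) + 2 ^ (ρ + s) := by
    rw [pow_succ, pow_add]; ring
  have h1 : ∑' b, A.w b * om A (2 ^ ρ) (s + 1) (q ++ [b]) ≤ A.Fb (2 ^ (ρ + s)) := by
    unfold Alph.Fb
    refine ENNReal.tsum_le_tsum fun b => ?_
    by_cases h0 : om A (2 ^ ρ) (s + 1) (q ++ [b]) = 0
    · rw [h0, mul_zero]; exact zero_le
    have h2 := om_ne h0
    have h3 : 2 ^ (ρ + s) < A.h b := by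
      rcases h2 with h | h
      · omega
      · have h4 := h.2.1
        rw [e, H_concat] at h4
        have h5 : 2 ^ ρ ≤ 2 ^ (ρ + s) := Nat.pow_le_pow_right (by norm_num) (by omega)
        omega
    rw [iv_pos h3]
    calc A.w b * om A (2 ^ ρ) (s + 1) (q ++ [b]) ≤ A.w b * 1 := mul_le_mul' le_rfl (om_le _ _ _)
      _ = A.w b := mul_one _
  rw [e]
  calc (∑' b, A.w b * om A (2 ^ ρ) (s + 1) (q ++ [b])) * A.S (2 ^ (ρ + s) + 2 ^ (ρ + s))
      ≤ A.Fb (2 ^ (ρ + s)) * (A.S (2 ^ (ρ + s)) + A.S (2 ^ (ρ + s))) :=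
        mul_le_mul' h1 ((hra _).R7 _ _ le_rfl)
    _ = 2 * (A.Fb (2 ^ (ρ + s)) * A.S (2 ^ (ρ + s))) := by ring
    _ ≤ 2 * 1 := mul_le_mul' le_rfl (hr.R3 _)
    _ ≤ 2 ^ 2 := by norm_num

/-- One tall end. -/
theorem one_tallV (hc : Calc A) (hr : Ren A) (hra : ∀ n, RenAnti A n) (hEv : Evt E)
    {ρ t N Jm : ℕ} (ht : 1 ≤ t) (hJ : ρ + t ≤ Jm) (hN : 1 ≤ N) {C Q Q' γ θ Θ K0 : ℝ≥0∞}
    (hθ : θ < 1) (hQQ : Q ≤ Q') (hQ : Q' ≤ γ ^ N) (hΘ : 1 ≤ Θ)
    (hchp : ∀ i ≤ Jm, ∑ c ∈ Sc i, A.RR c (fun q1 => A.GG (c - 1) (fun p2 =>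
      iv (E (c - 1) q1 p2) 1)) ≤ K0)
    (hK3 : ∀ i lo, i ≤ ρ → 2 ^ (ρ + 1) ≤ lo →
      A.GG (2 ^ ρ) (fun p1 => A.GG (2 ^ ρ) (fun p2 => iv (E (2 ^ ρ) p1 p2 ∧
        Nat.log 2 (A.H p1.dropLast) = i ∧ lo < A.H p1 ∧ A.H p1 ≤ lo + 2 ^ (ρ + t)) 1)) *
        A.S (2 ^ (ρ + t)) ≤ C * Q ^ (ρ + t - ρ) * θ ^ (ρ + t - i)) :
    A.GG (2 ^ ρ) (fun p1 => A.GG (2 ^ ρ) (fun p2 => om A (2 ^ ρ) t p1 * om A (2 ^ ρ) 0 p2 *
      ker A E ρ Θ true (2 ^ ρ) p1 p2)) * (A.S (2 ^ t * 2 ^ ρ) * A.S (2 ^ ρ)) ≤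
      (C * (32 * (K0 + 1)) ^ (N - 1)) ^ (1 / N : ℝ) * (1 - Θ * θ ^ (1 / N : ℝ))⁻¹ * γ ^ t *
        A.S (2 ^ ρ) := by
  have e0 : 2 ^ t * 2 ^ ρ = 2 ^ (ρ + t) := by rw [pow_add]; ring
  have h12 : ∀ q, A.H q ≤ 2 ^ ρ →
      (∑' b, A.w b * om A (2 ^ ρ) t (q ++ [b])) * A.S (2 ^ t * 2 ^ ρ) ≤ 2 ^ 2 :=
    fun q hq => cls_mass hr hra ht q hq
  set r := 2 ^ ρ with hrdef
  have hr1 : 1 ≤ r := Nat.one_le_two_pow
  refine assem (ρ := ρ) hN hQ (fun i => A.GG r (fun p1 => A.GG r (fun p2 => iv (E r p1 p2 ∧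
    Nat.log 2 (A.H p1.dropLast) = i) (om A r t p1 * om A r 0 p2)))) ?_ ?_ ?_
  · rw [← GG2_sum hc r (range (ρ + 1)) (fun i => Θ ^ (ρ - i)) (fun i p1 p2 => iv (E r p1 p2 ∧
      Nat.log 2 (A.H p1.dropLast) = i) (om A r t p1 * om A r 0 p2))]
    refine hc.GG_mono _ _ _ fun p1 hp1 => hc.GG_mono _ _ _ fun p2 _ => ?_
    by_cases h0 : om A r t p1 * om A r 0 p2 = 0
    · rw [h0, zero_mul]; exact zero_le
    have ht1 : Tall A r p1 := (cl_tall hr1 ht (om_ne (left_ne_zero_of_mul h0))).1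
    have ht2 : ¬ Tall A r p2 := cl_not (om_ne (right_ne_zero_of_mul h0))
    have hk : ker A E ρ Θ true r p1 p2 =
        iv (E r p1 p2) (Θ ^ (ρ - Nat.log 2 (A.H p1.dropLast))) := by
      unfold ker
      rw [if_pos rfl, tw_tall ht1, tw_not ht2, max_eq_left (one_le_pow₀ hΘ)]
    rw [hk]
    have hi := log_le (A := A) hrdef hp1
    refine le_trans (le_of_eq ?_) (Finset.single_le_sum (f := fun i => Θ ^ (ρ - i) *
      iv (E r p1 p2 ∧ Nat.log 2 (A.H p1.dropLast) = i) (om A r t p1 * om A r 0 p2))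
      (fun _ _ => zero_le) (Finset.mem_range.mpr (Nat.lt_succ_of_le hi)))
    by_cases hE : E r p1 p2
    · rw [iv_pos hE, iv_pos ⟨hE, rfl⟩, mul_comm]
    · rw [iv_neg hE, iv_neg (fun h => hE h.1), mul_zero, mul_zero]
  · intro i hi
    have hlo : 2 ^ (ρ + 1) ≤ 2 ^ t * r := by
      rw [e0]; exact Nat.pow_le_pow_right (by norm_num) (by omega)
    have h1 := hK3 i (2 ^ t * r) hi hlo
    have h2 : A.GG r (fun p1 => A.GG r (fun p2 => iv (E r p1 p2 ∧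
        Nat.log 2 (A.H p1.dropLast) = i) (om A r t p1 * om A r 0 p2))) ≤
        A.GG r (fun p1 => A.GG r (fun p2 => iv (E r p1 p2 ∧
        Nat.log 2 (A.H p1.dropLast) = i ∧ 2 ^ t * r < A.H p1 ∧
          A.H p1 ≤ 2 ^ t * r + 2 ^ (ρ + t)) 1)) := by
      refine hc.GG_mono _ _ _ fun p1 _ => hc.GG_mono _ _ _ fun p2 _ => ?_
      by_cases h0 : om A r t p1 * om A r 0 p2 = 0
      · rw [h0]
        exact (iv_le _ _).trans zero_le
      have hw := (cl_tall hr1 ht (om_ne (left_ne_zero_of_mul h0))).2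
      refine iv_mono (fun h => ⟨h.1, h.2, hw.1, ?_⟩) fun _ => ?_
      · have := hw.2
        rw [← e0]; exact this
      · calc om A r t p1 * om A r 0 p2 ≤ 1 * 1 := mul_le_mul' (om_le _ _ _) (om_le _ _ _)
          _ = 1 := one_mul 1
    calc _ = A.GG r (fun p1 => A.GG r (fun p2 => iv (E r p1 p2 ∧
        Nat.log 2 (A.H p1.dropLast) = i) (om A r t p1 * om A r 0 p2))) *
          A.S (2 ^ (ρ + t)) * A.S r := by rw [e0, mul_assoc]
      _ ≤ C * Q ^ (ρ + t - ρ) * θ ^ (ρ + t - i) * A.S r :=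
          mul_le_mul' ((mul_le_mul' h2 le_rfl).trans h1) le_rfl
      _ ≤ C * Q' ^ t * θ ^ (ρ - i) * A.S r := by
          rw [Nat.add_sub_cancel_left]
          have : θ ^ (ρ + t - i) ≤ θ ^ (ρ - i) := pow_le_pow_right_of_le_one' hθ.le (by omega)
          gcongr
  · intro i hi
    have h3 : A.GG r (fun p1 => A.GG r (fun p2 => iv (E r p1 p2 ∧
        Nat.log 2 (A.H p1.dropLast) = i) (om A r t p1 * om A r 0 p2))) ≤
        A.GG r (fun p1 => iv (Nat.log 2 (A.H p1.dropLast) = i)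
          (om A r t p1 * A.GG r (fun p2 => iv (E r p1 p2) 1))) := by
      refine hc.GG_mono _ _ _ fun p1 _ => ?_
      rw [← hc.GG_smul, ← GG_iv' hc]
      refine hc.GG_mono _ _ _ fun p2 _ => ?_
      rw [and_comm, iv_and_iv]
      refine iv_mono id fun _ => ?_
      rw [iv_mul_left]
      refine mul_le_mul' le_rfl ?_
      exact iv_mono id fun _ => om_le _ _ _
    have h4 := T1_bound hc hr (hchp i (by omega)) (y := 1) (x := 2)
      (F := fun p1 => A.GG r (fun p2 => iv (E r p1 p2) 1)) h12 (fun q b hq _ => by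
        rw [one_mul]
        exact n_le hc hEv (List.prefix_append q [b]) hq)
    calc _ = A.GG r (fun p1 => A.GG r (fun p2 => iv (E r p1 p2 ∧
        Nat.log 2 (A.H p1.dropLast) = i) (om A r t p1 * om A r 0 p2))) *
          A.S (2 ^ t * r) * A.S r := by rw [mul_assoc]
      _ ≤ 2 ^ 2 * (1 * (K0 + 1)) * A.S r :=
          mul_le_mul' ((mul_le_mul' h3 le_rfl).trans h4) le_rfl
      _ = 4 * (K0 + 1) * A.S r := by norm_num
      _ ≤ 32 * (K0 + 1) * A.S r := by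
          have : (4 : ℝ≥0∞) ≤ 32 := by norm_num
          gcongr

/-- Two tall ends. -/
theorem two_tallV (hc : Calc A) (hr : Ren A) (hra : ∀ n, RenAnti A n) (hEv : Evt E)
    {ρ t1 t2 t N Jm : ℕ} (ht1 : 1 ≤ t1) (ht2 : 1 ≤ t2) (ht : t = max t1 t2) (hJ : ρ + t ≤ Jm)
    (hN : 1 ≤ N) {C Q Q' γ θ Θ K0 : ℝ≥0∞}
    (hθ : θ < 1) (hQ1 : 1 ≤ Q') (hQQ : 2 * Q ≤ Q') (hQ : Q' ≤ γ ^ N) (hΘ : 1 ≤ Θ)
    (hchp : ∀ i ≤ Jm, ∑ c ∈ Sc i, A.RR c (fun q1 => A.GG (c - 1) (fun p2 =>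
      iv (E (c - 1) q1 p2) 1)) ≤ K0)
    (hchp' : ∀ i ≤ Jm, ∑ c ∈ Sc i, A.RR c (fun q2 => A.GG (c - 1) (fun p1 =>
      iv (E (c - 1) p1 q2) 1)) ≤ K0)
    (hK3 : ∀ i lo lo', i ≤ ρ → 2 ^ (ρ + 1) ≤ lo → 2 ^ (ρ + 1) ≤ lo' →
      A.GG (2 ^ ρ) (fun p1 => A.GG (2 ^ ρ) (fun p2 => iv (E (2 ^ ρ) p1 p2 ∧
        min (Nat.log 2 (A.H p1.dropLast)) (Nat.log 2 (A.H p2.dropLast)) = i ∧
        lo < A.H p1 ∧ A.H p1 ≤ lo + 2 ^ (ρ + t) ∧ lo' < A.H p2 ∧ A.H p2 ≤ lo' + 2 ^ (ρ + t)) 1)) *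
        A.S (2 ^ (ρ + t)) ≤ C * Q ^ (ρ + t - ρ) * θ ^ (ρ + t - i)) :
    A.GG (2 ^ ρ) (fun p1 => A.GG (2 ^ ρ) (fun p2 => om A (2 ^ ρ) t1 p1 * om A (2 ^ ρ) t2 p2 *
      ker A E ρ Θ true (2 ^ ρ) p1 p2)) * (A.S (2 ^ t1 * 2 ^ ρ) * A.S (2 ^ t2 * 2 ^ ρ)) ≤
      (C * (32 * (K0 + 1)) ^ (N - 1)) ^ (1 / N : ℝ) * (1 - Θ * θ ^ (1 / N : ℝ))⁻¹ *
        γ ^ (t1 + t2) * A.S (2 ^ ρ) := by
  have e0 : ∀ t : ℕ, 2 ^ t * 2 ^ ρ = 2 ^ (ρ + t) := fun t => by rw [pow_add]; ring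
  have hm1 : ∀ q, A.H q ≤ 2 ^ ρ →
      (∑' b, A.w b * om A (2 ^ ρ) t1 (q ++ [b])) * A.S (2 ^ t1 * 2 ^ ρ) ≤ 2 ^ 2 :=
    fun q hq => cls_mass hr hra ht1 q hq
  have hm2 : ∀ q, A.H q ≤ 2 ^ ρ →
      (∑' b, A.w b * om A (2 ^ ρ) t2 (q ++ [b])) * A.S (2 ^ t2 * 2 ^ ρ) ≤ 2 ^ 2 :=
    fun q hq => cls_mass hr hra ht2 q hq
  have hSS : A.S (2 ^ t1 * 2 ^ ρ) * A.S (2 ^ t2 * 2 ^ ρ) ≤
      A.S (2 ^ (ρ + t)) * (2 ^ t * A.S (2 ^ ρ)) := by
    rw [e0, e0, ht]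
    rcases le_total t1 t2 with h | h
    · rw [max_eq_right h, mul_comm]
      refine mul_le_mul' le_rfl ((S_dy hra ρ t1).trans (mul_le_mul' ?_ le_rfl))
      exact pow_le_pow_right₀ (by norm_num) h
    · rw [max_eq_left h]
      refine mul_le_mul' le_rfl ((S_dy hra ρ t2).trans (mul_le_mul' ?_ le_rfl))
      exact pow_le_pow_right₀ (by norm_num) h
  set r := 2 ^ ρ with hrdef
  have hr1 : 1 ≤ r := Nat.one_le_two_pow
  set S1 := A.S (2 ^ t1 * r) with hS1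
  set S2 := A.S (2 ^ t2 * r) with hS2
  have hS10 : S1 ≠ 0 := S_ne_zero hr _
  have hS1t : S1 ≠ ⊤ := S_ne_top hr _
  have hS20 : S2 ≠ 0 := S_ne_zero hr _
  have hS2t : S2 ≠ ⊤ := S_ne_top hr _
  refine assem (ρ := ρ) hN hQ (fun i => A.GG r (fun p1 => A.GG r (fun p2 => iv (E r p1 p2 ∧
    min (Nat.log 2 (A.H p1.dropLast)) (Nat.log 2 (A.H p2.dropLast)) = i)
      (om A r t1 p1 * om A r t2 p2)))) ?_ ?_ ?_
  · rw [← GG2_sum hc r (range (ρ + 1)) (fun i => Θ ^ (ρ - i)) (fun i p1 p2 => iv (E r p1 p2 ∧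
      min (Nat.log 2 (A.H p1.dropLast)) (Nat.log 2 (A.H p2.dropLast)) = i)
      (om A r t1 p1 * om A r t2 p2))]
    refine hc.GG_mono _ _ _ fun p1 hp1 => hc.GG_mono _ _ _ fun p2 hp2 => ?_
    by_cases h0 : om A r t1 p1 * om A r t2 p2 = 0
    · rw [h0, zero_mul]; exact zero_le
    have hta1 : Tall A r p1 := (cl_tall hr1 ht1 (om_ne (left_ne_zero_of_mul h0))).1
    have hta2 : Tall A r p2 := (cl_tall hr1 ht2 (om_ne (right_ne_zero_of_mul h0))).1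
    set i1 := Nat.log 2 (A.H p1.dropLast) with hi1
    set i2 := Nat.log 2 (A.H p2.dropLast) with hi2
    have hk : ker A E ρ Θ true r p1 p2 = iv (E r p1 p2) (Θ ^ (ρ - min i1 i2)) := by
      unfold ker
      rw [if_pos rfl, tw_tall hta1, tw_tall hta2]
      congr 1
      rcases le_total i1 i2 with h | h
      · rw [min_eq_left h, max_eq_left (pow_le_pow_right₀ hΘ (by omega))]
      · rw [min_eq_right h, max_eq_right (pow_le_pow_right₀ hΘ (by omega))]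
    rw [hk]
    have hi : min i1 i2 ≤ ρ := (min_le_left _ _).trans (log_le (A := A) hrdef hp1)
    refine le_trans (le_of_eq ?_) (Finset.single_le_sum (f := fun i => Θ ^ (ρ - i) *
      iv (E r p1 p2 ∧ min i1 i2 = i) (om A r t1 p1 * om A r t2 p2))
      (fun _ _ => zero_le) (Finset.mem_range.mpr (Nat.lt_succ_of_le hi)))
    by_cases hE : E r p1 p2
    · rw [iv_pos hE, iv_pos ⟨hE, rfl⟩, mul_comm]
    · rw [iv_neg hE, iv_neg (fun h => hE h.1), mul_zero, mul_zero]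
  · intro i hi
    have hlo : ∀ s, 1 ≤ s → 2 ^ (ρ + 1) ≤ 2 ^ s * r := fun s hs => by
      rw [e0]; exact Nat.pow_le_pow_right (by norm_num) (by omega)
    have h1 := hK3 i (2 ^ t1 * r) (2 ^ t2 * r) hi (hlo _ ht1) (hlo _ ht2)
    have hb1 : 2 ^ t1 * r ≤ 2 ^ (ρ + t) := by
      rw [e0]; exact Nat.pow_le_pow_right (by norm_num) (by have := le_max_left t1 t2; omega)
    have hb2 : 2 ^ t2 * r ≤ 2 ^ (ρ + t) := by
      rw [e0]; exact Nat.pow_le_pow_right (by norm_num) (by have := le_max_right t1 t2; omega)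
    have h2 : A.GG r (fun p1 => A.GG r (fun p2 => iv (E r p1 p2 ∧
        min (Nat.log 2 (A.H p1.dropLast)) (Nat.log 2 (A.H p2.dropLast)) = i)
        (om A r t1 p1 * om A r t2 p2))) ≤
        A.GG r (fun p1 => A.GG r (fun p2 => iv (E r p1 p2 ∧
        min (Nat.log 2 (A.H p1.dropLast)) (Nat.log 2 (A.H p2.dropLast)) = i ∧
        2 ^ t1 * r < A.H p1 ∧ A.H p1 ≤ 2 ^ t1 * r + 2 ^ (ρ + t) ∧
        2 ^ t2 * r < A.H p2 ∧ A.H p2 ≤ 2 ^ t2 * r + 2 ^ (ρ + t)) 1)) := by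
      refine hc.GG_mono _ _ _ fun p1 _ => hc.GG_mono _ _ _ fun p2 _ => ?_
      by_cases h0 : om A r t1 p1 * om A r t2 p2 = 0
      · rw [h0]
        exact (iv_le _ _).trans zero_le
      have hw := (cl_tall hr1 ht1 (om_ne (left_ne_zero_of_mul h0))).2
      have hw' := (cl_tall hr1 ht2 (om_ne (right_ne_zero_of_mul h0))).2
      refine iv_mono (fun h => ⟨h.1, h.2, hw.1, ?_, hw'.1, ?_⟩) fun _ => ?_
      · have := hw.2
        omega
      · have := hw'.2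
        omega
      · calc om A r t1 p1 * om A r t2 p2 ≤ 1 * 1 := mul_le_mul' (om_le _ _ _) (om_le _ _ _)
          _ = 1 := one_mul 1
    calc _ ≤ A.GG r (fun p1 => A.GG r (fun p2 => iv (E r p1 p2 ∧
        min (Nat.log 2 (A.H p1.dropLast)) (Nat.log 2 (A.H p2.dropLast)) = i)
        (om A r t1 p1 * om A r t2 p2))) * (A.S (2 ^ (ρ + t)) * (2 ^ t * A.S r)) :=
          mul_le_mul' le_rfl hSS
      _ = A.GG r (fun p1 => A.GG r (fun p2 => iv (E r p1 p2 ∧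
        min (Nat.log 2 (A.H p1.dropLast)) (Nat.log 2 (A.H p2.dropLast)) = i)
        (om A r t1 p1 * om A r t2 p2))) * A.S (2 ^ (ρ + t)) * (2 ^ t * A.S r) := by
          rw [mul_assoc]
      _ ≤ C * Q ^ (ρ + t - ρ) * θ ^ (ρ + t - i) * (2 ^ t * A.S r) :=
          mul_le_mul' ((mul_le_mul' h2 le_rfl).trans h1) le_rfl
      _ = C * (2 * Q) ^ t * θ ^ (ρ + t - i) * A.S r := by
          rw [Nat.add_sub_cancel_left, mul_pow]; ring
      _ ≤ C * Q' ^ (t1 + t2) * θ ^ (ρ - i) * A.S r := by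
          have h5 : θ ^ (ρ + t - i) ≤ θ ^ (ρ - i) := pow_le_pow_right_of_le_one' hθ.le (by omega)
          have h6 : (2 * Q) ^ t ≤ Q' ^ (t1 + t2) :=
            (pow_le_pow_left₀ zero_le hQQ t).trans (pow_le_pow_right₀ hQ1 (by omega))
          gcongr
  · intro i hi
    have h3 : A.GG r (fun p1 => A.GG r (fun p2 => iv (E r p1 p2 ∧
        min (Nat.log 2 (A.H p1.dropLast)) (Nat.log 2 (A.H p2.dropLast)) = i)
          (om A r t1 p1 * om A r t2 p2))) ≤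
        A.GG r (fun p1 => iv (Nat.log 2 (A.H p1.dropLast) = i)
          (om A r t1 p1 * A.GG r (fun p2 => iv (E r p1 p2 ∧ A.H p1.dropLast ≤ A.H p2.dropLast)
            (om A r t2 p2)))) +
        A.GG r (fun p2 => iv (Nat.log 2 (A.H p2.dropLast) = i)
          (om A r t2 p2 * A.GG r (fun p1 => iv (E r p1 p2 ∧ A.H p2.dropLast ≤ A.H p1.dropLast)
            (om A r t1 p1)))) := by
      have e1 : A.GG r (fun p1 => iv (Nat.log 2 (A.H p1.dropLast) = i)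
          (om A r t1 p1 * A.GG r (fun p2 => iv (E r p1 p2 ∧ A.H p1.dropLast ≤ A.H p2.dropLast)
            (om A r t2 p2)))) = A.GG r (fun p1 => A.GG r (fun p2 =>
          iv (Nat.log 2 (A.H p1.dropLast) = i) (om A r t1 p1 *
            iv (E r p1 p2 ∧ A.H p1.dropLast ≤ A.H p2.dropLast) (om A r t2 p2)))) := by
        simp only [GG_iv' hc, hc.GG_smul]
      have e2 : A.GG r (fun p2 => iv (Nat.log 2 (A.H p2.dropLast) = i)
          (om A r t2 p2 * A.GG r (fun p1 => iv (E r p1 p2 ∧ A.H p2.dropLast ≤ A.H p1.dropLast)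
            (om A r t1 p1)))) = A.GG r (fun p1 => A.GG r (fun p2 =>
          iv (Nat.log 2 (A.H p2.dropLast) = i) (om A r t2 p2 *
            iv (E r p1 p2 ∧ A.H p2.dropLast ≤ A.H p1.dropLast) (om A r t1 p1)))) := by
        rw [Helper36.Eps.GG_comm r r]
        simp only [GG_iv' hc, hc.GG_smul]
      rw [e1, e2, ← hc.GG_addf]
      refine hc.GG_mono _ _ _ fun p1 _ => ?_
      rw [← hc.GG_addf]
      refine hc.GG_mono _ _ _ fun p2 _ => ?_
      by_cases h : E r p1 p2 ∧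
          min (Nat.log 2 (A.H p1.dropLast)) (Nat.log 2 (A.H p2.dropLast)) = i
      · rw [iv_pos h]
        rcases le_total (A.H p1.dropLast) (A.H p2.dropLast) with hh | hh
        · have hl := Nat.log_mono_right (b := 2) hh
          rw [min_eq_left hl] at h
          refine le_trans (le_of_eq ?_) le_self_add
          rw [iv_pos h.2, iv_pos ⟨h.1, hh⟩]
        · have hl := Nat.log_mono_right (b := 2) hh
          rw [min_eq_right hl] at h
          refine le_trans (le_of_eq ?_) le_add_self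
          rw [iv_pos h.2, iv_pos ⟨h.1, hh⟩, mul_comm]
      · rw [iv_neg h]; exact zero_le
    -- the parameter of the second end, relative to `S r`
    have hpar : ∀ (s : ℕ) (Ss : ℝ≥0∞), Ss ≠ 0 → Ss ≠ ⊤ → (∀ q, A.H q ≤ r →
        (∑' b, A.w b * om A r s (q ++ [b])) * Ss ≤ 2 ^ 2) → ∀ q, A.H q ≤ r →
        (∑' b, A.w b * om A r s (q ++ [b])) * A.S (2 ^ ρ) ≤
          ((4 * A.S (2 ^ ρ) / Ss) ^ (1 / 2 : ℝ)) ^ 2 := by
      intro s Ss h0 htop hm q hq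
      rw [← sqrt_pow', sqrt_sq']
      rw [ENNReal.le_div_iff_mul_le (Or.inl h0) (Or.inl htop)]
      calc (∑' b, A.w b * om A r s (q ++ [b])) * A.S (2 ^ ρ) * Ss
          = (∑' b, A.w b * om A r s (q ++ [b])) * Ss * A.S (2 ^ ρ) := by ring
        _ ≤ 2 ^ 2 * A.S (2 ^ ρ) := mul_le_mul' (hm q hq) le_rfl
        _ = _ := by norm_num
    have hT1 := T1_bound hc hr (hchp i (by omega)) (y := 4 * A.S (2 ^ ρ) / S2) (S := S1) (x := 2)
      (om := om A r t1) (F := fun p1 => A.GG r (fun p2 => iv (E r p1 p2 ∧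
        A.H p1.dropLast ≤ A.H p2.dropLast) (om A r t2 p2))) hm1 (fun q b hq _ => by
        have := inner_ge hc hr hEv (J := ρ) (le_of_eq hrdef) (P := q ++ [b])
          (List.prefix_append q [b]) hq (hpar t2 S2 hS20 hS2t hm2)
        rw [← sqrt_pow', sqrt_sq'] at this
        simpa only [List.dropLast_concat] using this)
    have hT2 := T1_bound (E := fun T a b => E T b a) hc hr (hchp' i (by omega))
      (y := 4 * A.S (2 ^ ρ) / S1) (S := S2) (x := 2)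
      (om := om A r t2) (F := fun p2 => A.GG r (fun p1 => iv (E r p1 p2 ∧
        A.H p2.dropLast ≤ A.H p1.dropLast) (om A r t1 p1))) hm2 (fun q b hq _ => by
        have := inner_ge hc hr (Evt.swp hEv) (J := ρ) (le_of_eq hrdef) (P := q ++ [b])
          (List.prefix_append q [b]) hq (hpar t1 S1 hS10 hS1t hm1)
        rw [← sqrt_pow', sqrt_sq'] at this
        simpa only [List.dropLast_concat] using this)
    have hd : ∀ x y : ℝ≥0∞, y ≠ 0 → y ≠ ⊤ → x / y * y = x := fun x y h h' =>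
      ENNReal.div_mul_cancel h h'
    refine (mul_le_mul' h3 le_rfl).trans ?_
    rw [add_mul]
    calc _ + _ ≤ 2 ^ 2 * (4 * A.S (2 ^ ρ) / S2 * (K0 + 1)) * S2 +
          2 ^ 2 * (4 * A.S (2 ^ ρ) / S1 * (K0 + 1)) * S1 := by
          refine add_le_add ?_ ?_
          · rw [← mul_assoc]; exact mul_le_mul' hT1 le_rfl
          · rw [mul_comm S1 S2, ← mul_assoc]; exact mul_le_mul' hT2 le_rfl
      _ = 2 ^ 2 * (4 * A.S (2 ^ ρ) / S2 * S2 * (K0 + 1)) +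
          2 ^ 2 * (4 * A.S (2 ^ ρ) / S1 * S1 * (K0 + 1)) := by ring
      _ = 32 * (K0 + 1) * A.S r := by
          rw [hd _ _ hS20 hS2t, hd _ _ hS10 hS1t, ← hrdef]; ring

end

/-- Packet CSAV. -/
theorem CSAV (hCHP : CHP_stmt) (_hGSB : GSB_stmt) : CSAV_stmt := by
  intro C Q θ γ hC hQ hθ hγ hγt
  have hQt : max 1 (2 * Q) < ⊤ := by
    rw [max_lt_iff]
    exact ⟨ENNReal.one_lt_top, by finiteness⟩
  obtain ⟨N, hN1, hN⟩ : ∃ N : ℕ, 1 ≤ N ∧ max 1 (2 * Q) ≤ γ ^ N := by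
    have h1 := (ENNReal.tendsto_pow_atTop_nhds_top_iff.mpr hγ).eventually (lt_mem_nhds hQt)
    obtain ⟨N, h2, h3⟩ := (h1.and (Filter.eventually_ge_atTop 1)).exists
    exact ⟨N, h3, h2.le⟩
  have hθ' : θ ^ (1 / N : ℝ) < 1 := by
    refine ENNReal.rpow_lt_one hθ ?_
    have : (0 : ℝ) < N := by exact_mod_cast hN1
    positivity
  obtain ⟨Θ, hΘ1, hΘ2⟩ := exists_between (ENNReal.one_lt_inv.mpr hθ')
  have hΘt : Θ ≠ ⊤ := hΘ2.ne_top
  have hΘθ : Θ * θ ^ (1 / N : ℝ) < 1 := by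
    have hΘ0 : Θ ≠ 0 := (zero_lt_one.trans hΘ1).ne'
    have h1 : θ ^ (1 / N : ℝ) < Θ⁻¹ := ENNReal.lt_inv_iff_lt_inv.mp hΘ2
    calc Θ * θ ^ (1 / N : ℝ) < Θ * Θ⁻¹ := (ENNReal.mul_lt_mul_iff_right hΘ0 hΘt).mpr h1
      _ = 1 := ENNReal.mul_inv_cancel hΘ0 hΘt
  set K0 : ℝ≥0∞ := 4 * C + 2 with hK0
  set K1 := (C * (32 * (K0 + 1)) ^ (N - 1)) ^ (1 / N : ℝ) * (1 - Θ * θ ^ (1 / N : ℝ))⁻¹ with hK1
  have hK1t : K1 ≠ ⊤ := by
    refine ENNReal.mul_ne_top ?_ ?_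
    · refine ENNReal.rpow_ne_top_of_nonneg (by positivity) ?_
      finiteness
    · rw [ENNReal.inv_ne_top]
      exact (tsub_pos_of_lt hΘθ).ne'
  refine ⟨Θ, 1 + C + K1, hΘ1, hΘt, by rw [add_assoc]; exact le_self_add, by finiteness, ?_⟩
  intro B D A E hc hr hra Jm hCrn r hdep hrJ
  have hEv := hCrn.evt
  have hCHP' := hCHP A E hc hr hra hEv Jm C 1 le_rfl hCrn.k1
  intro t1 t2 hJ1 hJ2
  rcases hdep with h0 | ⟨ρ, hρ⟩
  · -- depth `0`
    subst h0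
    have hnt : ∀ p, ¬ Tall A 0 p := fun p h => by
      have := h.1
      omega
    have hGS0 : ∀ φ : List B → ℝ≥0∞, GS A 0 φ = φ [] := fun φ => by
      unfold GS
      rw [if_pos rfl]
    simp only [hGS0]
    by_cases hz : Cl A 0 t1 [] ∧ Cl A 0 t2 []
    · rw [iv_pos hz]
      have hz0 : ∀ t, Cl A 0 t [] → t = 0 := by
        intro t h
        rcases h with h | h
        · exact h.1
        · have := h.2.1
          have := h.2.2
          omega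
      have e1 := hz0 _ hz.1
      have e2 := hz0 _ hz.2
      subst e1
      subst e2
      have hk : ker A E (Nat.log 2 0) Θ true 0 [] [] ≤ 1 := by
        unfold ker
        rw [if_pos rfl, tw_not (hnt _), max_self]
        exact iv_le _ _
      have hS0 : A.S 0 = 1 := by
        unfold Alph.S
        simpa using hr.u_zero
      rw [mul_zero, hS0, add_zero, pow_zero, mul_one, mul_one, mul_one, mul_one]
      exact hk.trans (by rw [add_assoc]; exact le_self_add)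
    · rw [iv_neg hz, zero_mul]
      exact zero_le
  · subst hρ
    rw [Nat.log_pow (by norm_num)] at hrJ hJ1 hJ2
    rw [Nat.log_pow (by norm_num)]
    have hr1 : 1 ≤ 2 ^ ρ := Nat.one_le_two_pow
    have hr0 : (2 ^ ρ : ℕ) ≠ 0 := by omega
    have hGS : ∀ φ : List B → ℝ≥0∞, GS A (2 ^ ρ) φ = A.GG (2 ^ ρ) φ := by
      intro φ
      unfold GS
      rw [if_neg hr0]
    simp only [hGS, iv_om]
    have hchp : ∀ i ≤ Jm, ∑ c ∈ Sc i, A.RR c (fun q1 => A.GG (c - 1) (fun p2 =>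
        iv (E (c - 1) q1 p2) 1)) ≤ K0 := fun i hi => by
      simpa only [one_pow, mul_one] using (hCHP' i hi).1
    have hchp' : ∀ i ≤ Jm, ∑ c ∈ Sc i, A.RR c (fun q2 => A.GG (c - 1) (fun p1 =>
        iv (E (c - 1) p1 q2) 1)) ≤ K0 := fun i hi => by
      simpa only [one_pow, mul_one] using (hCHP' i hi).2
    have hQ1 : (1 : ℝ≥0∞) ≤ max 1 (2 * Q) := le_max_left _ _
    have hQ2 : 2 * Q ≤ max 1 (2 * Q) := le_max_right _ _
    have hQ3 : Q ≤ max 1 (2 * Q) := by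
      refine le_trans ?_ hQ2
      calc Q = 1 * Q := (one_mul Q).symm
        _ ≤ 2 * Q := mul_le_mul' (by norm_num) le_rfl
    have hfin : ∀ n : ℕ, K1 * γ ^ n * A.S (2 ^ ρ) ≤ (1 + C + K1) * γ ^ n * A.S (2 ^ ρ) := by
      intro n
      exact mul_le_mul' (mul_le_mul' le_add_self le_rfl) le_rfl
    rcases Nat.eq_zero_or_pos t1 with h1 | h1
    · subst h1
      rcases Nat.eq_zero_or_pos t2 with h2 | h2
      · -- no tall end
        subst h2
        rw [pow_zero, one_mul, add_zero, pow_zero, mul_one]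
        have h1 : A.GG (2 ^ ρ) (fun p1 => A.GG (2 ^ ρ) (fun p2 => om A (2 ^ ρ) 0 p1 *
            om A (2 ^ ρ) 0 p2 * ker A E ρ Θ true (2 ^ ρ) p1 p2)) ≤
            A.GG (2 ^ ρ) (fun p1 => A.GG (2 ^ ρ) (fun p2 => iv (E (2 ^ ρ) p1 p2) 1)) := by
          refine hc.GG_mono _ _ _ fun p1 _ => hc.GG_mono _ _ _ fun p2 _ => ?_
          by_cases hz : om A (2 ^ ρ) 0 p1 * om A (2 ^ ρ) 0 p2 = 0
          · rw [hz, zero_mul]; exact zero_le
          have hk : ker A E ρ Θ true (2 ^ ρ) p1 p2 = iv (E (2 ^ ρ) p1 p2) 1 := by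
            unfold ker
            rw [if_pos rfl, tw_not (cl_not (om_ne (left_ne_zero_of_mul hz))),
              tw_not (cl_not (om_ne (right_ne_zero_of_mul hz))), max_self]
          rw [hk]
          calc om A (2 ^ ρ) 0 p1 * om A (2 ^ ρ) 0 p2 * iv (E (2 ^ ρ) p1 p2) 1 ≤
                1 * 1 * iv (E (2 ^ ρ) p1 p2) 1 :=
                mul_le_mul' (mul_le_mul' (om_le _ _ _) (om_le _ _ _)) le_rfl
            _ = _ := by ring
        rw [← mul_assoc]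
        refine mul_le_mul' ?_ le_rfl
        calc _ ≤ A.GG (2 ^ ρ) (fun p1 => A.GG (2 ^ ρ) (fun p2 => iv (E (2 ^ ρ) p1 p2) 1)) *
              A.S (2 ^ ρ) := mul_le_mul' h1 le_rfl
          _ ≤ C * 1 ^ (Jm - ρ) := hCrn.k1 ρ hrJ
          _ = C := by rw [one_pow, mul_one]
          _ ≤ 1 + C + K1 := le_add_self.trans le_self_add
      · -- second end tall
        have h3 := one_tallV (E := fun T a b => E T b a) hc hr hra (Evt.swp hEv) h2 hJ2 hN1 hθ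
          hQ3 hN hΘ1.le hchp' (C := C)
          (fun i lo hi hlo => by
            have h4 := (hCrn.k3 (ρ + t2) hJ2 ρ i lo (by omega) hi hlo).2.1
            rw [Helper36.Eps.GG_comm] at h4
            exact h4)
        have h5 : A.GG (2 ^ ρ) (fun p1 => A.GG (2 ^ ρ) (fun p2 => om A (2 ^ ρ) 0 p1 *
            om A (2 ^ ρ) t2 p2 * ker A E ρ Θ true (2 ^ ρ) p1 p2)) =
            A.GG (2 ^ ρ) (fun p1 => A.GG (2 ^ ρ) (fun p2 => om A (2 ^ ρ) t2 p1 *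
            om A (2 ^ ρ) 0 p2 * ker A (fun T a b => E T b a) ρ Θ true (2 ^ ρ) p1 p2)) := by
          rw [Helper36.Eps.GG_comm]
          congr 1
          funext p1
          congr 1
          funext p2
          unfold ker
          rw [if_pos rfl, if_pos rfl, max_comm, mul_comm (om A (2 ^ ρ) 0 p2)]
        rw [h5, pow_zero, one_mul, zero_add, mul_comm (A.S (2 ^ ρ)) (A.S (2 ^ t2 * 2 ^ ρ))]
        exact h3.trans (hfin _)
    · rcases Nat.eq_zero_or_pos t2 with h2 | h2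
      · subst h2
        have h3 := one_tallV hc hr hra hEv h1 hJ1 hN1 hθ hQ3 hN hΘ1.le hchp (C := C)
          (fun i lo hi hlo => (hCrn.k3 (ρ + t1) hJ1 ρ i lo (by omega) hi hlo).1)
        rw [pow_zero, one_mul, add_zero]
        exact h3.trans (hfin _)
      · have hJ : ρ + max t1 t2 ≤ Jm := by
          rcases le_total t1 t2 with h | h
          · rw [max_eq_right h]; exact hJ2
          · rw [max_eq_left h]; exact hJ1
        have h3 := two_tallV hc hr hra hEv h1 h2 rfl hJ hN1 hθ hQ1 hQ2 hN hΘ1.le hchp hchp'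
          (C := C) (fun i lo lo' hi hlo hlo' =>
            (hCrn.k3 (ρ + max t1 t2) hJ ρ i lo (by omega) hi hlo).2.2 lo' hlo')
        exact h3.trans (hfin _)

end Pool.Agent.Helper2.PB
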